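import Pool.Agent.H23.GU.SNU1
import Pool.Agent.H34.GZ.Targets2

/-!
Board gu: unfolding of the sum over the singular matrices.
-/

namespace Pool.Agent.H23.GU

open MeasureTheory Pool.Agent.H34.GM Pool.Agent.H34.GZ Pool.Agent.H34.GU

/-- the units -/
abbrev UG (m : ℕ) := {γ : ZM m // IsUnit γ}

/-- right multiplication by a unit on the units -/
noncomputable def rmul {m : ℕ} (c : (ZM m)ˣ) : UG m ≃ UG m where
  toFun γ := ⟨γ.1 * c, γ.2.mul c.isUnit⟩
  invFun γ := ⟨γ.1 * (c⁻¹ : (ZM m)ˣ), γ.2.mul (c⁻¹ : (ZM m)ˣ).isUnit⟩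
  left_inv γ := by
    ext1
    show γ.1 * c * (c⁻¹ : (ZM m)ˣ) = γ.1
    rw [mul_assoc, Units.mul_inv, mul_one]
  right_inv γ := by
    ext1
    show γ.1 * (c⁻¹ : (ZM m)ˣ) * c = γ.1
    rw [mul_assoc, Units.inv_mul, mul_one]

lemma cR_mul {m : ℕ} (a b : ZM m) : cR (a * b) = cR a * cR b := by
  unfold cR
  exact Matrix.map_mul (f := Int.castRingHom ℝ)

lemma cR_det {m : ℕ} (a : ZM m) : (cR a).det = ((a.det : ℤ) : ℝ) := by
  unfold cR
  exact ((Int.castRingHom ℝ).map_det a).symm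

lemma unit_det {m : ℕ} {a : ZM m} (ha : IsUnit a) : (cR a).det ≠ 0 := by
  rw [cR_det]
  have : IsUnit a.det := (Matrix.isUnit_iff_isUnit_det a).1 ha
  have h := this.ne_zero
  exact_mod_cast h

lemma det_lmU {m : ℕ} {a : ZM m} (ha : IsUnit a) {z : V m} (hz : (mt z).det ≠ 0) :
    (mt (lm (cR a) z)).det ≠ 0 := by
  rw [mt_lm, Matrix.det_mul]
  exact mul_ne_zero (unit_det ha) hz

lemma mem_KL_mul {m k : ℕ} {p β : ZM m} (hβ : KL β = VK m k) (c : Fin m → ℤ) :
    c ∈ KL (p * β) ↔ Matrix.vecMul c p ∈ VK m k := by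
  rw [← hβ]
  show Matrix.vecMul c (p * β) = 0 ↔ Matrix.vecMul (Matrix.vecMul c p) β = 0
  rw [Matrix.vecMul_vecMul]

lemma KL_mul_iff {m k : ℕ} {p β : ZM m} (hp : IsUnit p) (hβ : KL β = VK m k) :
    KL (p * β) = VK m k ↔ p ∈ PK m k := by
  constructor
  · intro h
    refine ⟨hp, fun c => ?_⟩
    rw [← mem_KL_mul hβ, h]
  · intro h
    ext c
    rw [mem_KL_mul hβ, h.2 c]

lemma PK_inv {m k : ℕ} {c : (ZM m)ˣ} (hc : (c : ZM m) ∈ PK m k) :
    ((c⁻¹ : (ZM m)ˣ) : ZM m) ∈ PK m k := by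
  refine ⟨(c⁻¹ : (ZM m)ˣ).isUnit, fun v => ?_⟩
  rw [hc.2 (Matrix.vecMul v _), Matrix.vecMul_vecMul, Units.inv_mul, Matrix.vecMul_one]

lemma PK_KL {m k : ℕ} {c : ZM m} (hc : c ∈ PK m k) (β : ZM m) :
    KL (c * β) = VK m k ↔ KL β = VK m k := by
  constructor
  · intro h
    obtain ⟨c', hc'⟩ := hc.1
    have h1 : β = ((c'⁻¹ : (ZM m)ˣ) : ZM m) * (c * β) := by
      rw [← hc', ← mul_assoc, Units.inv_mul, one_mul]
    rw [h1]
    refine (KL_mul_iff (c'⁻¹ : (ZM m)ˣ).isUnit h).2 ?_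
    refine PK_inv ?_
    rw [hc']
    exact hc
  · intro h
    exact (KL_mul_iff hc.1 h).2 hc

lemma BK_PK {m k : ℕ} {C : ZM m} (hC : C ∈ BK m k) : 1 + C ∈ PK m k := by
  have h0 : C * C = 0 := by
    ext i j
    rw [Matrix.mul_apply, Matrix.zero_apply]
    refine Finset.sum_eq_zero fun l _ => ?_
    by_contra h
    have h1 := hC i l (left_ne_zero_of_mul h)
    have h2 := hC l j (right_ne_zero_of_mul h)
    omega
  refine ⟨?_, fun c => ?_⟩
  · refine IsUnit.of_mul_eq_one (1 - C) ?_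
    have : (1 + C) * (1 - C) = 1 - C * C := by noncomm_ring
    rw [this, h0, sub_zero]
  · have hj : ∀ j : Fin m, k ≤ (j : ℕ) → Matrix.vecMul c (1 + C) j = c j := by
      intro j hj
      rw [Matrix.vecMul_add, Matrix.vecMul_one, Pi.add_apply]
      have : Matrix.vecMul c C j = 0 := by
        show ∑ i, c i * C i j = 0
        refine Finset.sum_eq_zero fun i _ => ?_
        by_contra h
        have := hC i j (right_ne_zero_of_mul h)
        omega
      rw [this, add_zero]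
    constructor
    · intro h j hk
      rw [hj j hk]
      exact h j hk
    · intro h j hk
      rw [← hj j hk]
      exact h j hk

open Classical in
/-- the sum of the weights over the units which bring the matrix in the standard form -/
lemma wsum {m k : ℕ} {ω κ : V m → ENNReal} (hW : Wt m k ω κ) {α : ZM m}
    (hα : ∃ γ : ZM m, IsUnit γ ∧ KL (γ * α) = VK m k) {z : V m} (hz : (mt z).det ≠ 0) :
    ∑' γ : UG m, (if KL (γ.1 * α) = VK m k then
      ω (lm (cR γ.1) z) * κ (lm (cR γ.1) z) else 0) = 1 := by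
  obtain ⟨γ0, h0, h1⟩ := hα
  obtain ⟨c, hc⟩ := h0
  rw [← (rmul c).tsum_eq, ← hW.par (lm (cR γ0) z) (det_lmU ⟨c, hc⟩ hz)]
  have e1 : ∀ f : ZM m → ENNReal, ∑' p : PK m k, f p.1 = ∑' p : ZM m, (PK m k).indicator f p :=
    fun f => tsum_subtype (PK m k) f
  have e2 : ∀ f : ZM m → ENNReal, ∑' p : UG m, f p.1 =
      ∑' p : ZM m, ({γ : ZM m | IsUnit γ}).indicator f p :=
    fun f => tsum_subtype {γ : ZM m | IsUnit γ} f
  rw [e1 (fun p => ω (lm (cR p) (lm (cR γ0) z)) * κ (lm (cR p) (lm (cR γ0) z)))]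
  have e3 : ∀ p : UG m, (if KL ((rmul c p).1 * α) = VK m k then
      ω (lm (cR (rmul c p).1) z) * κ (lm (cR (rmul c p).1) z) else 0) =
      (fun q : ZM m => if KL (q * γ0 * α) = VK m k then
        ω (lm (cR q) (lm (cR γ0) z)) * κ (lm (cR q) (lm (cR γ0) z)) else 0) p.1 := by
    intro p
    show (if KL (p.1 * (c : ZM m) * α) = VK m k then
      ω (lm (cR (p.1 * (c : ZM m))) z) * κ (lm (cR (p.1 * (c : ZM m))) z) else 0) = _
    rw [hc, cR_mul, ← lm_lm]
  rw [tsum_congr e3, e2 (fun q : ZM m => if KL (q * γ0 * α) = VK m k then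
    ω (lm (cR q) (lm (cR γ0) z)) * κ (lm (cR q) (lm (cR γ0) z)) else 0)]
  refine tsum_congr fun p => ?_
  by_cases hp : IsUnit p
  · rw [Set.indicator_of_mem (show p ∈ {γ : ZM m | IsUnit γ} from hp)]
    have h2 : KL (p * γ0 * α) = VK m k ↔ p ∈ PK m k := by
      rw [mul_assoc]
      exact KL_mul_iff hp h1
    by_cases h3 : p ∈ PK m k
    · rw [Set.indicator_of_mem h3, if_pos (h2.2 h3)]
    · rw [Set.indicator_of_notMem h3, if_neg (fun h => h3 (h2.1 h))]
  · rw [Set.indicator_of_notMem (show p ∉ {γ : ZM m | IsUnit γ} from hp),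
      Set.indicator_of_notMem (fun h => hp h.1)]

open Classical in
/-- reindexing of a sum over the matrices in the standard form -/
lemma theta_lm {m k : ℕ} {E : Type} [AddCommMonoid E] [TopologicalSpace E] (G : ZM m → V m → E)
    (hG : ∀ (c α : ZM m) (z : V m), IsUnit c → (mt z).det ≠ 0 → G (c * α) (lm (cR c) z) = G α z)
    {c : ZM m} (hc : IsUnit c) {z : V m} (hz : (mt z).det ≠ 0) :
    ∑' β : ZM m, (if KL β = VK m k then G β (lm (cR c) z) else 0) =
      ∑' α : ZM m, (if KL (c * α) = VK m k then G α z else 0) := by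
  obtain ⟨u, hu⟩ := hc
  rw [← (Units.mulLeft u).tsum_eq]
  refine tsum_congr fun α => ?_
  show (if KL ((u : ZM m) * α) = VK m k then G ((u : ZM m) * α) (lm (cR c) z) else 0) = _
  rw [hu, hG c α z ⟨u, hu⟩ hz]

open Classical in
lemma theta_inv {m k : ℕ} {E : Type} [AddCommMonoid E] [TopologicalSpace E] (G : ZM m → V m → E)
    (hG : ∀ (c α : ZM m) (z : V m), IsUnit c → (mt z).det ≠ 0 → G (c * α) (lm (cR c) z) = G α z) :
    ∀ C ∈ BK m k, ∀ z : V m, (mt z).det ≠ 0 →
      ∑' β : ZM m, (if KL β = VK m k then G β (lm (Pu1 k (cv C)) z) else 0) =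
        ∑' β : ZM m, (if KL β = VK m k then G β z else 0) := by
  intro C hC z hz
  have h1 : Pu1 k (cv C) = cR (1 + C) := by
    rw [← one_add_cR hC]
    ext i j
    simp only [Matrix.add_apply, cR, Matrix.map_apply]
    by_cases hij : i = j
    · subst hij
      simp
    · simp [Matrix.one_apply_ne hij]
  rw [h1, theta_lm G hG (BK_PK hC).1 hz]
  refine tsum_congr fun α => ?_
  simp only [PK_KL (BK_PK hC)]

open Classical in
/-- the abstract unfolding for one `k`, absolute version -/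
lemma unf_abs {m k : ℕ} {D : Set (V m)} (hm1 : 1 ≤ m) (hD : DomZ m D) (hU : T_UNZ)
    {ω κ : V m → ENNReal} (hW : Wt m k ω κ) (G : ZM m → V m → ENNReal)
    (hGm : ∀ α, Measurable (G α))
    (hG : ∀ (c α : ZM m) (z : V m), IsUnit c → (mt z).det ≠ 0 → G (c * α) (lm (cR c) z) = G α z)
    (hk : ∀ α z, G α z ≠ 0 → ∃ γ : ZM m, IsUnit γ ∧ KL (γ * α) = VK m k) :
    ∫⁻ z in D, ∑' α : ZM m, G α z ∂(hm m) =
      ∫⁻ z in Shell m, ω z * κ z * ∑' β : ZM m, (if KL β = VK m k then G β z else 0) ∂(hm m) := by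
  have hcZ : Countable (ZM m) := inferInstanceAs (Countable (Fin m → Fin m → ℤ))
  have hm2 : Measurable fun z => ω z * κ z * ∑' β : ZM m, (if KL β = VK m k then G β z else 0) := by
    refine (hW.m1.mul hW.m2).mul (Measurable.tsum fun β => ?_)
    by_cases h : KL β = VK m k
    · simp only [if_pos h]
      exact hGm β
    · simp only [if_neg h]
      exact measurable_const
  rw [(hU m hm1 D hD).1 _ hm2]
  refine setLIntegral_congr_fun hD.meas fun z hz => ?_
  have hz' : (mt z).det ≠ 0 := shell_det hm1 (hD.shell z hz)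
  have h1 : ∀ γ : {γ : ZM m // IsUnit γ},
      ω (fun i j => (cR γ.1 * mt z) i j) * κ (fun i j => (cR γ.1 * mt z) i j) *
        ∑' β : ZM m, (if KL β = VK m k then G β (fun i j => (cR γ.1 * mt z) i j) else 0) =
      ∑' α : ZM m, (if KL (γ.1 * α) = VK m k then
        ω (lm (cR γ.1) z) * κ (lm (cR γ.1) z) else 0) * G α z := by
    intro γ
    have h2 := theta_lm (k := k) G hG γ.2 hz'
    show ω (lm (cR γ.1) z) * κ (lm (cR γ.1) z) *
        ∑' β : ZM m, (if KL β = VK m k then G β (lm (cR γ.1) z) else 0) = _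
    rw [h2, ← ENNReal.tsum_mul_left]
    refine tsum_congr fun α => ?_
    split_ifs <;> simp
  show _ = ∑' γ : {γ : ZM m // IsUnit γ},
      ω (fun i j => (cR γ.1 * mt z) i j) * κ (fun i j => (cR γ.1 * mt z) i j) *
        ∑' β : ZM m, (if KL β = VK m k then G β (fun i j => (cR γ.1 * mt z) i j) else 0)
  rw [tsum_congr h1, ENNReal.tsum_comm]
  refine tsum_congr fun α => ?_
  rw [ENNReal.tsum_mul_right]
  by_cases h0 : G α z = 0
  · rw [h0, mul_zero]
  · rw [wsum hW (hk α z h0) hz', one_mul]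

open Classical in
/-- one `k`: the sum vanishes -/
lemma unf_zero {m N k : ℕ} {D : Set (V m)} (hm1 : 1 ≤ m) (hD : DomZ m D) (hU : T_UNZ)
    (hH : T_HAR) {ω κ : V m → ENNReal} (hW : Wt m k ω κ) (G : ZM m → V m → ℂ)
    (hGm : ∀ α, Measurable (G α))
    (hG : ∀ (c α : ZM m) (z : V m), IsUnit c → (mt z).det ≠ 0 → G (c * α) (lm (cR c) z) = G α z)
    (hk : ∀ α z, G α z ≠ 0 → ∃ γ : ZM m, IsUnit γ ∧ KL (γ * α) = VK m k)
    (hfin : ∫⁻ z in D, ∑' α : ZM m, ‖G α z‖ₑ ∂(hm m) < ⊤)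
    (hzero : ∀ β : ZM m, KL β = VK m k → ∀ z : V m, (mt z).det ≠ 0 →
      ∫ u in Set.Icc (0 : V m) 1, G β (Av N k (z, u)) = 0) :
    ∫ z in D, ∑' α : ZM m, G α z ∂(hm m) = 0 := by
  have hcZ : Countable (ZM m) := inferInstanceAs (Countable (Fin m → Fin m → ℤ))
  have hA : Measurable (Av (m := m) N k) := (Av_cont N k).measurable
  -- the two theta functions
  set Θ : V m → ℂ := fun z => ∑' β : ZM m, (if KL β = VK m k then G β z else 0) with hΘ
  set Θa : V m → ENNReal := fun z => ∑' β : ZM m, (if KL β = VK m k then ‖G β z‖ₑ else 0) with hΘa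
  have hme : ∀ β : ZM m, Measurable fun z => (if KL β = VK m k then ‖G β z‖ₑ else 0) := by
    intro β
    by_cases h : KL β = VK m k
    · simp only [if_pos h]
      exact (hGm β).enorm
    · simp only [if_neg h]
      exact measurable_const
  have hmc : ∀ β : ZM m, Measurable fun z => (if KL β = VK m k then G β z else 0) := by
    intro β
    by_cases h : KL β = VK m k
    · simp only [if_pos h]
      exact hGm β
    · simp only [if_neg h]
      exact measurable_const
  have hΘam : Measurable Θa := Measurable.tsum hme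
  have hΘm : Measurable Θ := Measurable.tsum hmc
  have hle : ∀ z, ‖Θ z‖ₑ ≤ Θa z := by
    intro z
    refine le_trans enorm_tsum_le_tsum_enorm (ENNReal.tsum_le_tsum fun β => ?_)
    split_ifs <;> simp
  have hGe : ∀ (c α : ZM m) (z : V m), IsUnit c → (mt z).det ≠ 0 →
      ‖G (c * α) (lm (cR c) z)‖ₑ = ‖G α z‖ₑ := by
    intro c α z hc hz
    rw [hG c α z hc hz]
  have hinvA : ∀ C ∈ BK m k, ∀ z : V m, (mt z).det ≠ 0 → Θa (lm (Pu1 k (cv C)) z) = Θa z :=
    theta_inv (fun α z => ‖G α z‖ₑ) hGe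
  have hinvC : ∀ C ∈ BK m k, ∀ z : V m, (mt z).det ≠ 0 → Θ (lm (Pu1 k (cv C)) z) = Θ z :=
    theta_inv G hG
  have habs : ∫⁻ z in D, ∑' α : ZM m, ‖G α z‖ₑ ∂(hm m) =
      ∫⁻ z in Shell m, ω z * κ z * Θa z ∂(hm m) :=
    unf_abs hm1 hD hU hW (fun α z => ‖G α z‖ₑ) (fun α => (hGm α).enorm) hGe
      (fun α z h => hk α z (by simpa using h))
  have hfa : ∫⁻ z, Θa z ∂(nuM m ω κ) < ⊤ := by
    rw [lint_nuM hW.m1 hW.m2 hΘam, ← habs]
    exact hfin
  have hint : Integrable Θ (nuM m ω κ) :=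
    ⟨hΘm.aestronglyMeasurable, lt_of_le_of_lt (lintegral_mono hle) hfa⟩
  -- the inner integrals vanish
  have hprod : ∫⁻ z, (∫⁻ u in Set.Icc (0 : V m) 1, Θa (Av N k (z, u))) ∂(nuM m ω κ) < ⊤ := by
    have hc : Measurable fun p : V m × V m => Θa (Av N k p) := hΘam.comp hA
    rw [lint_nuM hW.m1 hW.m2 hc.lintegral_prod_right', ← exch (N := N) hm1 hH hW Θa hΘam hinvA,
      ← habs]
    exact hfin
  have hae1 : ∀ᵐ z ∂(nuM m ω κ), ∫⁻ u in Set.Icc (0 : V m) 1, Θa (Av N k (z, u)) < ⊤ := by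
    have hc : Measurable fun p : V m × V m => Θa (Av N k p) := hΘam.comp hA
    exact ae_lt_top hc.lintegral_prod_right' hprod.ne
  have hae2 : ∀ᵐ z ∂(nuM m ω κ), z ∈ Shell m := by
    have h1 : ∀ᵐ z ∂((hm m).restrict (Shell m)), z ∈ Shell m := ae_restrict_mem (shell_meas m)
    exact (withDensity_absolutelyContinuous _ _).ae_le h1
  have hz0 : ∀ᵐ z ∂(nuM m ω κ), ∫ u in Set.Icc (0 : V m) 1, Θ (Av N k (z, u)) = 0 := by
    filter_upwards [hae1, hae2] with z h1 h2
    have h3 : ∀ β : ZM m, Measurable fun u : V m =>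
        (if KL β = VK m k then ‖G β (Av N k (z, u))‖ₑ else 0) := fun β =>
      (hme β).comp (hA.comp (measurable_const.prodMk measurable_id))
    have h4 : ∀ β : ZM m, Measurable fun u : V m =>
        (if KL β = VK m k then G β (Av N k (z, u)) else 0) := fun β =>
      (hmc β).comp (hA.comp (measurable_const.prodMk measurable_id))
    show ∫ u in Set.Icc (0 : V m) 1, ∑' β : ZM m,
      (if KL β = VK m k then G β (Av N k (z, u)) else 0) = 0
    rw [integral_tsum (fun β => (h4 β).aestronglyMeasurable)]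
    · have h5 : ∀ β : ZM m, ∫ u in Set.Icc (0 : V m) 1,
          (if KL β = VK m k then G β (Av N k (z, u)) else 0) = 0 := by
        intro β
        by_cases h : KL β = VK m k
        · simp only [if_pos h]
          exact hzero β h z (shell_det hm1 h2)
        · simp only [if_neg h, integral_zero]
      simp only [h5, tsum_zero]
    · have h6 : ∑' β : ZM m, ∫⁻ u in Set.Icc (0 : V m) 1,
          ‖(if KL β = VK m k then G β (Av N k (z, u)) else 0)‖ₑ =
          ∫⁻ u in Set.Icc (0 : V m) 1, Θa (Av N k (z, u)) := by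
        rw [hΘa]
        rw [lintegral_tsum (fun β => (h3 β).aemeasurable)]
        refine tsum_congr fun β => lintegral_congr fun u => ?_
        split_ifs <;> simp
      rw [h6]
      exact h1.ne
  have hI0 := exch_cplx (N := N) hm1 hH hW Θ hΘm hinvC hint hz0
  -- unfolding
  have hWle : ∀ z, ω z * κ z ≤ 1 := fun z => mul_le_one' (hW.le z).1 (hW.le z).2
  have hWt : ∀ z, ω z * κ z < ⊤ := fun z => lt_of_le_of_lt (hWle z) ENNReal.one_lt_top
  have hI1 : ∫ z, Θ z ∂(nuM m ω κ) =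
      ∫ z in Shell m, (ω z * κ z).toReal • Θ z ∂(hm m) := by
    unfold nuM
    exact integral_withDensity_eq_integral_toReal_smul (hW.m1.mul hW.m2)
      (Filter.Eventually.of_forall hWt) Θ
  have hIn : IntegrableOn (fun z => (ω z * κ z).toReal • Θ z) (Shell m) (hm m) := by
    refine ⟨((hW.m1.mul hW.m2).ennreal_toReal.smul hΘm).aestronglyMeasurable, ?_⟩
    unfold HasFiniteIntegral
    refine lt_of_le_of_lt (lintegral_mono fun z => ?_)
      (show ∫⁻ z in Shell m, ω z * κ z * Θa z ∂(hm m) < ⊤ by rw [← habs]; exact hfin)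
    rw [enorm_smul]
    refine mul_le_mul' ?_ (hle z)
    rw [Real.enorm_eq_ofReal ENNReal.toReal_nonneg, ENNReal.ofReal_toReal (hWt z).ne]
  obtain ⟨-, -, hB⟩ := (hU m hm1 D hD).2 _ hIn
  rw [← hI1, hI0] at hB
  rw [hB]
  have haeD : ∀ᵐ z ∂((hm m).restrict D), ∑' α : ZM m, ‖G α z‖ₑ < ⊤ :=
    ae_lt_top (Measurable.tsum fun α => (hGm α).enorm) hfin.ne
  refine integral_congr_ae ?_
  filter_upwards [haeD, ae_restrict_mem hD.meas] with z h1 h2
  have hz' : (mt z).det ≠ 0 := shell_det hm1 (hD.shell z h2)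
  set c : UG m → ZM m → ENNReal := fun γ α => if KL (γ.1 * α) = VK m k then
    ω (lm (cR γ.1) z) * κ (lm (cR γ.1) z) else 0 with hc
  have hcle : ∀ γ α, c γ α ≤ 1 := by
    intro γ α
    simp only [hc]
    split_ifs
    · exact hWle _
    · exact zero_le_one
  have hct : ∀ γ α, c γ α ≠ ⊤ := fun γ α => (lt_of_le_of_lt (hcle γ α) ENNReal.one_lt_top).ne
  have hs1 : ∀ α, G α z ≠ 0 → ∑' γ : UG m, c γ α = 1 := fun α h0 => wsum hW (hk α z h0) hz'
  have hs2 : ∀ α, ∑' γ : UG m, (((c γ α).toReal : ℝ) : ℂ) * G α z = G α z := by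
    intro α
    by_cases h0 : G α z = 0
    · simp [h0]
    · rw [tsum_mul_right, ← Complex.ofReal_tsum, ← ENNReal.tsum_toReal_eq (fun γ => hct γ α),
        hs1 α h0]
      simp
  have hsum : Summable (Function.uncurry fun (γ : UG m) (α : ZM m) =>
      (((c γ α).toReal : ℝ) : ℂ) * G α z) := by
    refine Summable.of_norm (tsum_enorm_ne_top_iff_summable_norm.1 ?_)
    have h3 : ∑' p : UG m × ZM m, ‖Function.uncurry (fun (γ : UG m) (α : ZM m) =>
        (((c γ α).toReal : ℝ) : ℂ) * G α z) p‖ₑ ≤ ∑' α : ZM m, ‖G α z‖ₑ := by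
      show ∑' p : UG m × ZM m, ‖(((c p.1 p.2).toReal : ℝ) : ℂ) * G p.2 z‖ₑ ≤ _
      rw [ENNReal.tsum_prod (f := fun (γ : UG m) (α : ZM m) =>
        ‖(((c γ α).toReal : ℝ) : ℂ) * G α z‖ₑ), ENNReal.tsum_comm]
      refine ENNReal.tsum_le_tsum fun α => ?_
      by_cases h0 : G α z = 0
      · simp [h0]
      · have h4 : ∀ γ : UG m, ‖(((c γ α).toReal : ℝ) : ℂ) * G α z‖ₑ = c γ α * ‖G α z‖ₑ := by
          intro γ
          rw [enorm_mul]
          congr 1
          rw [← ofReal_norm, Complex.norm_real, Real.norm_of_nonneg ENNReal.toReal_nonneg,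
            ENNReal.ofReal_toReal (hct γ α)]
        simp only [h4]
        rw [ENNReal.tsum_mul_right, hs1 α h0, one_mul]
    exact (lt_of_le_of_lt h3 h1).ne
  have h5 : ∀ γ : {γ : ZM m // IsUnit γ},
      (ω (fun i j => (cR γ.1 * mt z) i j) * κ (fun i j => (cR γ.1 * mt z) i j)).toReal •
        Θ (fun i j => (cR γ.1 * mt z) i j) = ∑' α : ZM m, (((c γ α).toReal : ℝ) : ℂ) * G α z := by
    intro γ
    have h6 := theta_lm (k := k) G hG γ.2 hz'
    show (ω (lm (cR γ.1) z) * κ (lm (cR γ.1) z)).toReal •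
        ∑' β : ZM m, (if KL β = VK m k then G β (lm (cR γ.1) z) else 0) = _
    rw [h6, Complex.real_smul, ← tsum_mul_left]
    refine tsum_congr fun α => ?_
    simp only [hc]
    split_ifs <;> simp
  show ∑' α : ZM m, G α z = ∑' γ : {γ : ZM m // IsUnit γ},
      (ω (fun i j => (cR γ.1 * mt z) i j) * κ (fun i j => (cR γ.1 * mt z) i j)).toReal •
        Θ (fun i j => (cR γ.1 * mt z) i j)
  rw [tsum_congr h5, ← hsum.tsum_comm]
  exact (tsum_congr hs2).symm

/-- left multiplication by a unit does not change the class -/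
lemma cls_mul {m k : ℕ} {c : ZM m} (hc : IsUnit c) (α : ZM m) :
    (∃ γ : ZM m, IsUnit γ ∧ KL (γ * (c * α)) = VK m k) ↔
      ∃ γ : ZM m, IsUnit γ ∧ KL (γ * α) = VK m k := by
  obtain ⟨u, hu⟩ := hc
  constructor
  · rintro ⟨γ, h1, h2⟩
    exact ⟨γ * c, h1.mul (hu ▸ u.isUnit), by rw [mul_assoc]; exact h2⟩
  · rintro ⟨γ, h1, h2⟩
    refine ⟨γ * ((u⁻¹ : (ZM m)ˣ) : ZM m), h1.mul (u⁻¹ : (ZM m)ˣ).isUnit, ?_⟩
    have : γ * ((u⁻¹ : (ZM m)ˣ) : ZM m) * (c * α) = γ * α := by
      rw [← hu, mul_assoc, ← mul_assoc ((u⁻¹ : (ZM m)ˣ) : ZM m), Units.inv_mul, one_mul]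
    rw [this]
    exact h2

open Classical in
/-- the class of a matrix -/
noncomputable def mk {m : ℕ} (α : ZM m) : ℕ :=
  if h : ∃ k : ℕ, 0 < k ∧ k < m ∧ ∃ γ : ZM m, IsUnit γ ∧ KL (γ * α) = VK m k then Nat.find h else 0

lemma mk_mul {m : ℕ} {c : ZM m} (hc : IsUnit c) (α : ZM m) : mk (c * α) = mk α := by
  classical
  unfold mk
  simp only [cls_mul hc]

lemma mk_spec {m : ℕ} {α : ZM m}
    (h : ∃ k : ℕ, 0 < k ∧ k < m ∧ ∃ γ : ZM m, IsUnit γ ∧ KL (γ * α) = VK m k) :
    0 < mk α ∧ mk α < m ∧ ∃ γ : ZM m, IsUnit γ ∧ KL (γ * α) = VK m (mk α) := by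
  classical
  unfold mk
  rw [dif_pos h]
  exact Nat.find_spec h

theorem pf_SNU (hA : T_SNA) (hW : T_SNW) (hU : T_UNZ) (hH : T_HAR) : T_SNU := by
  classical
  intro m N D hm1 hN hD G hGm hG hG0 hG00 hfin hzero
  have hcZ : Countable (ZM m) := inferInstanceAs (Countable (Fin m → Fin m → ℤ))
  have hfin' : ∫⁻ z in D, ∑' α : ZM m, ‖G α z‖ₑ ∂(hm m) < ⊤ := by
    refine lt_of_le_of_lt (le_of_eq ?_) hfin
    refine lintegral_congr fun z => tsum_congr fun α => ?_
    rw [ofReal_norm]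
  -- the pieces
  set Gk : ℕ → ZM m → V m → ℂ := fun k α z => if mk α = k then G α z else 0 with hGk
  have hcls : ∀ α z, G α z ≠ 0 →
      ∃ k : ℕ, 0 < k ∧ k < m ∧ ∃ γ : ZM m, IsUnit γ ∧ KL (γ * α) = VK m k := by
    intro α z h
    refine hA m α ?_ ?_
    · by_contra h0
      exact h (hG0 α z h0)
    · rintro rfl
      exact h (hG00 z)
  have hle : ∀ k α z, ‖Gk k α z‖ₑ ≤ ‖G α z‖ₑ := by
    intro k α z
    simp only [hGk]
    split_ifs <;> simp
  have hmeas : ∀ k α, Measurable (Gk k α) := by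
    intro k α
    simp only [hGk]
    by_cases h : mk α = k
    · simp only [if_pos h]
      exact hGm α
    · simp only [if_neg h]
      exact measurable_const
  have hz : ∀ k : ℕ, ∫ z in D, ∑' α : ZM m, Gk k α z ∂(hm m) = 0 := by
    intro k
    by_cases hk : 0 < k ∧ k < m
    · obtain ⟨ω, κ, hWt⟩ := exWt hW m k hk.1 hk.2
      refine unf_zero (N := N) hm1 hD hU hH hWt (Gk k) (hmeas k) ?_ ?_ ?_ ?_
      · intro c α z hc hz
        simp only [hGk, mk_mul hc]
        split_ifs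
        · exact hG c α z hc hz
        · rfl
      · intro α z h
        have h1 : mk α = k := by
          by_contra h1
          exact h (by simp only [hGk, if_neg h1])
        have h2 : G α z ≠ 0 := by
          simpa only [hGk, if_pos h1] using h
        have h3 := (mk_spec (hcls α z h2)).2.2
        rw [h1] at h3
        exact h3
      · exact lt_of_le_of_lt (lintegral_mono fun z => ENNReal.tsum_le_tsum fun α => hle k α z) hfin'
      · intro β hβ z hz
        by_cases h1 : mk β = k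
        · simp only [hGk, if_pos h1]
          have h2 := hzero k hk.1 hk.2 β hβ z hz
          refine Eq.trans ?_ h2
          refine integral_congr_ae (Filter.Eventually.of_forall fun u => ?_)
          show G β (lm (Pu1 k ((N : ℝ) • u)) z) = G β (lm (1 + (N : ℝ) • nk k u) z)
          unfold Pu1
          rw [nk_smul]
        · simp only [hGk, if_neg h1, integral_zero]
    · have h0 : ∀ α z, Gk k α z = 0 := by
        intro α z
        simp only [hGk]
        split_ifs with h1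
        · by_contra h2
          have h3 := mk_spec (hcls α z h2)
          rw [h1] at h3
          exact hk ⟨h3.1, h3.2.1⟩
        · rfl
      simp only [h0, tsum_zero, integral_zero]
  -- summation
  have haeD : ∀ᵐ z ∂((hm m).restrict D), ∑' α : ZM m, ‖G α z‖ₑ < ⊤ :=
    ae_lt_top (Measurable.tsum fun α => (hGm α).enorm) hfin'.ne
  have hsumk : ∀ z, ∑' α : ZM m, ‖G α z‖ₑ < ⊤ → ∀ k, Summable fun α => Gk k α z := by
    intro z h k
    refine Summable.of_norm (tsum_enorm_ne_top_iff_summable_norm.1 ?_)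
    exact (lt_of_le_of_lt (ENNReal.tsum_le_tsum fun α => hle k α z) h).ne
  have hsplit : ∀ᵐ z ∂((hm m).restrict D), ∑' α : ZM m, G α z =
      ∑ k ∈ Finset.range (m + 1), ∑' α : ZM m, Gk k α z := by
    filter_upwards [haeD] with z h
    rw [← Summable.tsum_finsetSum (fun k _ => hsumk z h k)]
    refine tsum_congr fun α => ?_
    by_cases h0 : G α z = 0
    · rw [h0]
      refine (Finset.sum_eq_zero fun k _ => ?_).symm
      simp only [hGk, h0, ite_self]
    · have h3 := mk_spec (hcls α z h0)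
      simp only [hGk]
      rw [Finset.sum_ite_eq, if_pos (Finset.mem_range.2 (by omega))]
  rw [integral_congr_ae hsplit, integral_finsetSum]
  · exact Finset.sum_eq_zero fun k _ => hz k
  · intro k _
    refine ⟨(Measurable.tsum (hmeas k)).aestronglyMeasurable, ?_⟩
    unfold HasFiniteIntegral
    refine lt_of_le_of_lt (lintegral_mono fun z => ?_) hfin'
    exact le_trans enorm_tsum_le_tsum_enorm (ENNReal.tsum_le_tsum fun α => hle k α z)

end Pool.Agent.H23.GU
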