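import Pool.Agent.H23.GU.SNU
import Pool.Agent.H76.GU.Targets

/-!
Board gu: the weights of the target T_RHO give T_SNW.
-/

namespace Pool.Agent.H23.GU

open MeasureTheory Pool.Agent.H34.GM Pool.Agent.H34.GZ Pool.Agent.H34.GU

lemma ker_iff {m k : ℕ} (α : ZM m) : Pool.Agent.H76.GU.Ker k α ↔ KL α = VK m k := by
  constructor
  · intro h
    ext c
    exact h c
  · intro h c
    have : c ∈ KL α ↔ c ∈ VK m k := by rw [h]
    exact this

/-- the standard singular matrix -/
def std0 (m k : ℕ) : ZM m := Matrix.diagonal fun i => if (i : ℕ) < k then 0 else 1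

lemma std0_KL (m k : ℕ) : KL (std0 m k) = VK m k := by
  ext c
  show Matrix.vecMul c (std0 m k) = 0 ↔ ∀ j : Fin m, k ≤ (j : ℕ) → c j = 0
  constructor
  · intro h j hj
    have h1 := congrFun h j
    rw [std0, Matrix.vecMul_diagonal, if_neg (by omega), mul_one] at h1
    exact h1
  · intro h
    funext j
    rw [std0, Matrix.vecMul_diagonal]
    by_cases hj : (j : ℕ) < k
    · rw [if_pos hj, mul_zero]
      rfl
    · rw [if_neg hj, mul_one]
      exact h j (by omega)

lemma InP_iff (hO : Pool.Agent.H76.GU.T_ORB) {m k : ℕ} (hk : k ≤ m) (p : ZM m) :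
    Pool.Agent.H76.GU.InP k p ↔ p ∈ PK m k := by
  constructor
  · intro h
    have h1 := ((hO m).2.2.2 k (std0 m k) hk ((ker_iff _).2 (std0_KL m k)) p h.1).2 h
    exact (KL_mul_iff h.1 (std0_KL m k)).1 ((ker_iff _).1 h1)
  · intro h
    have h1 := (KL_mul_iff h.1 (std0_KL m k)).2 h
    exact ((hO m).2.2.2 k (std0 m k) hk ((ker_iff _).2 (std0_KL m k)) p h.1).1 ((ker_iff _).2 h1)

/-- the unipotent integer matrices -/
def eqB (m k : ℕ) : BK m k ≃ {n : ZM m // Pool.Agent.H76.GU.InN k n} where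
  toFun C := ⟨1 + C.1, by
    intro i j h
    have h1 : C.1 i j = 0 := by
      by_contra h2
      exact h (C.2 i j h2)
    rw [Matrix.add_apply, h1, add_zero]⟩
  invFun n := ⟨n.1 - 1, by
    intro i j h
    by_contra h1
    exact h (by rw [Matrix.sub_apply, n.2 i j h1, sub_self])⟩
  left_inv C := by
    ext1
    show 1 + C.1 - 1 = C.1
    rw [add_sub_cancel_left]
  right_inv n := by
    ext1
    show 1 + (n.1 - 1) = n.1
    rw [add_sub_cancel]

theorem snw_of_rho (hR : Pool.Agent.H76.GU.T_RHO) (hO : Pool.Agent.H76.GU.T_ORB) : T_SNW := by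
  intro m k h0 h1
  obtain ⟨κ, ν, a1, a2, a3, a4, a5, a6, a7⟩ := hR m k h1.le
  refine ⟨ν, κ, a2, a1, fun z => ⟨a4 z, a3 z⟩, fun z hz => ⟨fun u => a5 z u hz, ?_, ?_⟩⟩
  · rw [← a6 z hz, ← (eqB m k).tsum_eq]
    refine tsum_congr fun C => ?_
    have h2 : 1 + cR C.1 = cR ((eqB m k C : {n : ZM m // Pool.Agent.H76.GU.InN k n}) : ZM m) := by
      show 1 + cR C.1 = cR (1 + C.1)
      ext i j
      simp only [Matrix.add_apply, cR, Matrix.map_apply]
      by_cases hij : i = j
      · subst hij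
        simp
      · simp [Matrix.one_apply_ne hij]
    rw [h2]
    rfl
  · rw [← a7 z hz]
    have e1 : ∀ f : ZM m → ENNReal, ∑' p : PK m k, f p.1 = ∑' p : ZM m, (PK m k).indicator f p :=
      fun f => tsum_subtype (PK m k) f
    have e2 : ∀ f : ZM m → ENNReal, ∑' p : {p : ZM m // Pool.Agent.H76.GU.InP k p}, f p.1 =
        ∑' p : ZM m, ({p : ZM m | Pool.Agent.H76.GU.InP k p}).indicator f p :=
      fun f => tsum_subtype {p : ZM m | Pool.Agent.H76.GU.InP k p} f
    have e3 : {p : ZM m | Pool.Agent.H76.GU.InP k p} = PK m k := by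
      ext p
      exact InP_iff hO h1.le p
    rw [e3] at e2
    rw [e1 (fun p => ν (fun i j => (cR p * mt z) i j) * κ (fun i j => (cR p * mt z) i j)),
      e2 (fun p => κ (Pool.Agent.H76.GU.lm (cR p) z) * ν (Pool.Agent.H76.GU.lm (cR p) z))]
    refine tsum_congr fun p => ?_
    congr 1
    funext p
    exact mul_comm _ _

end Pool.Agent.H23.GU
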