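import Pool.Agent.H23.GU.SNU
import Pool.Agent.H76.GU.Targets

/-!
Board gu: the singular part vanishes on cusp forms.
-/

namespace Pool.Agent.H23.GU

open MeasureTheory Pool.Agent.H34.GM Pool.Agent.H34.GZ Pool.Agent.H34.GU

lemma unit_aN {m : ℕ} {c : ZM m} (hc : IsUnit c) (z : Mat m) : aN (cR c * z) = aN z := by
  unfold aN
  rw [Matrix.det_mul, cR_det, abs_mul]
  have h1 : IsUnit c.det := (Matrix.isUnit_iff_isUnit_det c).1 hc
  have h2 : |((c.det : ℤ) : ℝ)| = 1 := by
    rcases Int.isUnit_iff.1 h1 with h | h <;> simp [h]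
  rw [h2, one_mul]

lemma kk_unit {m : ℕ} {c : ZM m} (hc : IsUnit c) (r : ℝ) (z : Mat m) (α : ZM m) (g : Mat m) :
    kk r (cR c * z) (cR (c * α)) g = kk r z (cR α) g := by
  unfold kk
  rw [unit_aN hc, cR_mul, Matrix.mul_inv_rev]
  congr 1
  have h1 : IsUnit (cR c).det := (unit_det hc).isUnit
  rw [Matrix.mul_assoc z⁻¹ (cR c)⁻¹, ← Matrix.mul_assoc (cR c)⁻¹, Matrix.nonsing_inv_mul _ h1,
    Matrix.one_mul]

lemma Pu1_smul {m : ℕ} (k N : ℕ) (u : V m) : (1 : Mat m) + (N : ℝ) • nk k u =
    Pu1 k ((N : ℝ) • u) := by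
  unfold Pu1
  rw [nk_smul]

lemma zero_rows {m k : ℕ} {β : ZM m} (hβ : KL β = VK m k) (i j : Fin m) (hi : (i : ℕ) < k) :
    β i j = 0 := by
  have h1 : (Pi.single i (1 : ℤ) : Fin m → ℤ) ∈ VK m k := by
    intro l hl
    rw [Pi.single_apply, if_neg]
    rintro rfl
    omega
  rw [← hβ] at h1
  have h2 : Matrix.vecMul (Pi.single i (1 : ℤ)) β = 0 := h1
  rw [Matrix.single_one_vecMul] at h2
  exact congrFun h2 j

lemma nk_zero_rows {m k : ℕ} {β : ZM m} (hβ : KL β = VK m k) (u : V m) :
    nk k u * cR β = 0 := by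
  ext i j
  rw [Matrix.mul_apply, Matrix.zero_apply]
  refine Finset.sum_eq_zero fun l _ => ?_
  by_cases h : (l : ℕ) < k
  · have : cR β l j = 0 := by simp [cR, zero_rows hβ l j h]
    rw [this, mul_zero]
  · have : nk k u i l = 0 := by
      simp only [nk, Matrix.of_apply]
      rw [if_neg]
      omega
    rw [this, zero_mul]

lemma kk_Pu1 {m k : ℕ} {β : ZM m} (hβ : KL β = VK m k) (v : V m) (r : ℝ) (z g : Mat m) :
    kk r (Pu1 k v * z) (cR β) g = kk r z (cR β) g := by
  unfold kk
  have h1 : aN (Pu1 k v * z) = aN z := by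
    unfold aN
    rw [Matrix.det_mul, Pu1_det, one_mul]
  have h2 : Pu1 k v * cR β = cR β := by
    unfold Pu1
    rw [add_mul, one_mul, nk_zero_rows hβ, add_zero]
  have h3 : (Pu1 k v)⁻¹ * cR β = cR β := by
    have h4 : IsUnit (Pu1 k v).det := by rw [Pu1_det]; exact isUnit_one
    calc (Pu1 k v)⁻¹ * cR β = (Pu1 k v)⁻¹ * (Pu1 k v * cR β) := by rw [h2]
      _ = cR β := by rw [← Matrix.mul_assoc, Matrix.nonsing_inv_mul _ h4, Matrix.one_mul]
  rw [h1, Matrix.mul_inv_rev, Matrix.mul_assoc z⁻¹, h3]

lemma kk_meas {m : ℕ} (r : ℝ) (α g : Mat m) :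
    Measurable fun z : V m => (fun i j => kk r (mt z) α g i j : V m) := by
  refine measurable_pi_lambda _ fun i => measurable_pi_lambda _ fun j => ?_
  have hdet : Measurable fun z : V m => (mt z).det := det_cont.measurable
  have haN : Measurable fun z : V m => aN (mt z) := by
    unfold aN
    have h2 : Measurable fun z : V m => |(mt z).det| := (continuous_abs.comp det_cont).measurable
    exact h2.pow_const _
  have hmt : Continuous fun z : V m => mt z := by
    refine continuous_matrix fun i j => ?_
    show Continuous fun z : V m => z i j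
    fun_prop
  have hinv : ∀ i j : Fin m, Measurable fun z : V m => (mt z)⁻¹ i j := by
    intro i j
    have h1 : (fun z : V m => (mt z)⁻¹ i j) = fun z => ((mt z).det)⁻¹ * (mt z).adjugate i j := by
      funext z
      rw [Matrix.inv_def, Ring.inverse_eq_inv', Matrix.smul_apply, smul_eq_mul]
    rw [h1]
    have h2 : Continuous fun z : V m => (mt z).adjugate i j :=
      (hmt.matrix_adjugate).matrix_elem i j
    exact hdet.inv.mul h2.measurable
  have h3 : (fun z : V m => kk r (mt z) α g i j) = fun z : V m =>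
      (r⁻¹ * aN (mt z) / aN g) * ∑ l, (∑ l', (mt z)⁻¹ i l' * α l' l) * g l j := by
    funext z
    unfold kk
    rw [Matrix.smul_apply, smul_eq_mul, Matrix.mul_apply]
    simp only [Matrix.mul_apply]
  rw [h3]
  refine Measurable.mul ((measurable_const.mul haN).div_const _) ?_
  refine Finset.measurable_fun_sum _ fun l _ => Measurable.mul ?_ measurable_const
  exact Finset.measurable_fun_sum _ fun l' _ => (hinv i l').mul measurable_const

theorem pf_SGV (hS : T_SNU) (hAC : Pool.Agent.H76.GU.T_AC1) : Pool.Agent.H76.GU.T_SGV := by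
  classical
  intro m N _ T D hsys F lam mu hF Ψ hΨ g r x hg hr
  have hm1 := hsys.one_le
  have hD := hsys.dom
  have hab := hAC m N T D hsys F lam mu hF Ψ hΨ g r x hg hr
  set G : ZM m → V m → ℂ := fun α z => if (mt z).det = 0 ∨ α.det ≠ 0 then 0 else
    Ψ (kk r (mt z) (cR α) g) * F (mt z) (ac N α x) with hG
  have hdc : Continuous fun z : V m => mt z := by
    refine continuous_matrix fun i j => ?_
    show Continuous fun z : V m => z i j
    fun_prop
  have hopen : MeasurableSet {z : V m | (mt z).det ≠ 0} :=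
    (isOpen_ne_fun det_cont continuous_const).measurableSet
  have hmeas : ∀ α, Measurable (G α) := by
    intro α
    by_cases hα : α.det ≠ 0
    · have : G α = fun _ => 0 := by
        funext z
        simp only [hG]
        rw [if_pos (Or.inr hα)]
      rw [this]
      exact measurable_const
    · have h1 : G α = fun z => Ψ (kk r (mt z) (cR α) g) *
          ({z : V m | (mt z).det ≠ 0}).piecewise (fun z => F (mt z) (ac N α x)) (fun _ => 0) z := by
        funext z
        simp only [hG]
        by_cases hz : (mt z).det = 0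
        · rw [if_pos (Or.inl hz), Set.piecewise_eq_of_notMem _ _ _ (by simpa using hz), mul_zero]
        · rw [if_neg (by simp only [not_or, not_not]; exact ⟨hz, not_not.1 hα⟩),
            Set.piecewise_eq_of_mem _ _ _ (show z ∈ {z : V m | (mt z).det ≠ 0} from hz)]
      rw [h1]
      refine Measurable.mul ?_ ?_
      · have h2 : Measurable fun v : V m => Ψ (mt v) := (hΨ.cont.comp hdc).measurable
        exact h2.comp (kk_meas r (cR α) g)
      · refine ContinuousOn.measurable_piecewise ?_ continuousOn_const hopen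
        exact (hF.cont (ac N α x)).comp hdc.continuousOn (fun z hz => hz)
  have hinv : ∀ (c α : ZM m) (z : V m), IsUnit c → (mt z).det ≠ 0 →
      G (c * α) (fun i j => (cR c * mt z) i j) = G α z := by
    intro c α z hc hz
    show (if (mt (lm (cR c) z)).det = 0 ∨ (c * α).det ≠ 0 then 0 else
      Ψ (kk r (mt (lm (cR c) z)) (cR (c * α)) g) * F (mt (lm (cR c) z)) (ac N (c * α) x)) =
      if (mt z).det = 0 ∨ α.det ≠ 0 then 0 else
      Ψ (kk r (mt z) (cR α) g) * F (mt z) (ac N α x)
    have h1 : (mt (lm (cR c) z)).det ≠ 0 := det_lmU hc hz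
    have h2 : (c * α).det = 0 ↔ α.det = 0 := by
      rw [Matrix.det_mul]
      have h3 : c.det ≠ 0 := ((Matrix.isUnit_iff_isUnit_det c).1 hc).ne_zero
      constructor
      · intro h
        exact (mul_eq_zero.1 h).resolve_left h3
      · intro h
        rw [h, mul_zero]
    by_cases hα : α.det = 0
    · rw [if_neg (by simp only [not_or, not_not]; exact ⟨h1, h2.2 hα⟩),
        if_neg (by simp only [not_or, not_not]; exact ⟨hz, hα⟩), mt_lm, kk_unit hc]
      congr 1
      have h4 : ac N (c * α) x = ac N c (ac N α x) := by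
        show (cQ N (c * α)).mulVec x = (cQ N c).mulVec ((cQ N α).mulVec x)
        rw [Matrix.mulVec_mulVec]
        congr 1
        unfold cQ
        exact Matrix.map_mul (f := Int.castRingHom (ZMod N))
      rw [h4]
      exact hF.auto c hc (mt z) (ac N α x) hz
    · rw [if_pos (Or.inr fun h => hα (h2.1 h)), if_pos (Or.inr hα)]
  have h0 : ∀ z, G 0 z = 0 := by
    intro z
    simp only [hG]
    split_ifs
    · rfl
    · have h1 : ac N (0 : ZM m) x = 0 := by
        show (cQ N 0).mulVec x = 0
        have : cQ N (0 : ZM m) = 0 := by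
          ext i j
          simp [cQ]
        rw [this, Matrix.zero_mulVec]
      have h2 : ¬ Pr (0 : VN m N) := by
        rintro ⟨u, hu⟩
        have h3 : dt u (0 : VN m N) = 0 := by simp [dt]
        rw [h3] at hu
        have : Fact (1 < N) := ⟨by have := hsys.two_le; omega⟩
        exact zero_ne_one hu
      rw [h1, hF.supp _ _ h2, mul_zero]
  have hkey := hS m N D hm1 (by have := hsys.two_le; omega) hD G hmeas hinv
    (fun α z hα => by simp only [hG]; rw [if_pos (Or.inr hα)]) h0 ?_ ?_
  · refine Eq.trans ?_ hkey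
    refine setIntegral_congr_fun hD.meas fun z hz => ?_
    have hz' : (mt z).det ≠ 0 := shell_det hm1 (hD.shell z hz)
    refine tsum_congr fun α => ?_
    simp only [hG]
    by_cases hα : α.det = 0
    · rw [if_pos hα, if_neg (by simp only [not_or, not_not]; exact ⟨hz', hα⟩)]
    · rw [if_neg hα, if_pos (Or.inr hα)]
  · refine lt_of_le_of_lt (lintegral_mono fun z => ENNReal.tsum_le_tsum fun α => ?_) hab
    simp only [hG]
    split_ifs
    · simp
    · exact le_rfl
  · intro k hk0 hkm β hβ z hz
    by_cases hd : β.det = 0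
    · have h1 : ∀ u : V m, G β (fun i j => ((1 + (N : ℝ) • nk k u) * mt z) i j) =
          Ψ (kk r (mt z) (cR β) g) * F ((1 + (N : ℝ) • nk k u) * mt z) (ac N β x) := by
        intro u
        show (if (mt (lm (1 + (N : ℝ) • nk k u) z)).det = 0 ∨ β.det ≠ 0 then 0 else
          Ψ (kk r (mt (lm (1 + (N : ℝ) • nk k u) z)) (cR β) g) *
            F (mt (lm (1 + (N : ℝ) • nk k u) z)) (ac N β x)) = _
        rw [if_neg, mt_lm]
        · congr 1
          rw [Pu1_smul, kk_Pu1 hβ]
        · rw [Pu1_smul]
          simp only [not_or, not_not]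
          exact ⟨det_lmP k _ hz, hd⟩
      simp only [h1]
      rw [integral_const_mul, hF.cusp k hk0 hkm (mt z) (ac N β x) hz, mul_zero]
    · have h1 : ∀ u : V m, G β (fun i j => ((1 + (N : ℝ) • nk k u) * mt z) i j) = 0 := by
        intro u
        simp only [hG]
        rw [if_pos (Or.inr hd)]
      simp only [h1, integral_zero]

end Pool.Agent.H23.GU
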